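import Pool.Agent.Helper69.DC.Goals2
import Pool.Agent.Helper96.DC.PDE

/-!
# Project DC: existence of a differential equation of order at most `J` (`H_PDEC`)
-/

set_option autoImplicit false

namespace Pool.Agent.Helper15.DC

open Pool.Agent.Helper69.DC Finset MvPolynomial ComplexConjugate
open Pool.Agent.Helper28.Ball
open Pool.Agent.Helper96.DC

/-- The exponents of degree at most `J`. -/
noncomputable def SJ (m J : ℕ) : Finset (Fin m →₀ ℕ) :=
  (finsuppAntidiag (univ : Finset (Fin (m + 1))) J).image Finsupp.tail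

theorem card_SJ (m J : ℕ) : (SJ m J).card = (m + J).choose m := by
  unfold SJ
  rw [card_image_of_injOn]
  · rw [card_finsuppAntidiag_nat_eq_choose, card_univ, Fintype.card_fin]
    have : m + 1 + J - 1 = m + J := by omega
    rw [this, Nat.choose_symm_add]
  · intro s hs t ht hst
    rw [mem_coe, mem_finsuppAntidiag] at hs ht
    have h1 := hs.1
    have h2 := ht.1
    rw [Fin.sum_univ_succ] at h1 h2
    have h3 : ∀ i : Fin m, s i.succ = t i.succ := by
      intro i
      have := DFunLike.congr_fun hst i
      rwa [Finsupp.tail_apply, Finsupp.tail_apply] at this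
    have h4 : ∑ i : Fin m, s i.succ = ∑ i : Fin m, t i.succ := sum_congr rfl fun i _ => h3 i
    ext i
    refine Fin.cases ?_ (fun i => h3 i) i
    omega

theorem deg_SJ {m J : ℕ} {α : Fin m →₀ ℕ} (h : α ∈ SJ m J) : ∑ i, α i ≤ J := by
  unfold SJ at h
  rw [mem_image] at h
  obtain ⟨s, hs, rfl⟩ := h
  rw [mem_finsuppAntidiag] at hs
  have h1 := hs.1
  rw [Fin.sum_univ_succ] at h1
  simp only [Finsupp.tail_apply]
  omega

section

variable {m N : ℕ}

theorem tay3_fb (f : Fin (N + 1) → MvPolynomial (Fin m ⊕ Unit) ℂ) (k : Fin (N + 1)) :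
    tay3 (fb f k) = C (fb f k) := by
  unfold fb
  induction cj (f k) using MvPolynomial.induction_on with
  | C a =>
    rw [rename_C]
    unfold tay3
    rw [aeval_C]
    rfl
  | add p q hp hq => rw [map_add, map_add, hp, hq, map_add]
  | mul_X p j hp =>
    rw [map_mul, map_mul, hp, map_mul, rename_X]
    refine congrArg (fun y => C (rename (rho m) p) * y) ?_
    unfold tay3
    rw [aeval_X]
    rcases j with j | j
    · rfl
    · rfl

theorem coeff_mulC {σ R : Type*} [CommRing R] (α : σ →₀ ℕ) (p : MvPolynomial σ R) (a : R) :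
    coeff α (p * C a) = coeff α p * a := by
  rw [mul_comm, coeff_C_mul, mul_comm]

/-- The identity for the coefficients of the Taylor expansions. -/
theorem identC {d : ℕ} {f : Fin (N + 1) → MvPolynomial (Fin m ⊕ Unit) ℂ} (hf' : SMap m N d f)
    (α : Fin m →₀ ℕ) : coeff α (tay3 (gg f 0)) * fb f 0 -
      ∑ l : Fin N, coeff α (tay3 (gg f l.succ)) * fb f l.succ = 0 := by
  have h := congrArg (fun P => coeff α (tay3 P)) (ident hf')
  simp only [map_sub, map_sum, map_mul, map_zero, tay3_fb, coeff_sub, coeff_sum, coeff_mulC,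
    coeff_zero] at h
  exact h

end

theorem h_pdec : H_PDEC := by
  intro m N d J f hf' hN
  classical
  -- a nonzero component
  obtain ⟨k₀, hk₀⟩ : ∃ k, f k ≠ 0 := by
    by_contra hc
    push Not at hc
    exact not_isUnit_zero (hf'.cop 0 fun k => by rw [hc k])
  have hcard : Fintype.card {k : Fin (N + 1) // k ≠ k₀} < Fintype.card (SJ m J) := by
    have h2 : Fintype.card {k : Fin (N + 1) // k ≠ k₀} = N := by
      rw [Fintype.card_subtype_compl, Fintype.card_fin, Fintype.card_subtype_eq]
      rfl
    rw [h2, Fintype.card_coe, card_SJ]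
    exact hN
  obtain ⟨v, hv0, hv⟩ := exists_sol hcard (fun k (α : SJ m J) =>
    ((∏ i, (α.1 i).factorial : ℕ) : MvPolynomial (V3 m) ℂ) * coeff α.1 (tay3 (gg f k.1)))
  set P : MvPolynomial (Fin m) (MvPolynomial (V3 m) ℂ) :=
    ∑ α : SJ m J, monomial α.1 (v α) with hP
  have hcoef : ∀ α : SJ m J, coeff α.1 P = v α := by
    intro α
    rw [hP, coeff_sum, sum_eq_single α]
    · rw [coeff_monomial, if_pos rfl]
    · intro β _ hβ
      rw [coeff_monomial, if_neg]
      intro h
      exact hβ (Subtype.ext h)
    · intro h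
      exact absurd (mem_univ _) h
  have hsupp : P.support ⊆ SJ m J := by
    intro α hα
    by_contra hc
    rw [mem_support_iff] at hα
    apply hα
    rw [hP, coeff_sum]
    refine sum_eq_zero fun β _ => ?_
    rw [coeff_monomial, if_neg]
    intro h
    apply hc
    rw [← h]
    exact β.2
  have hpr : ∀ G : MvPolynomial (Fin m) (MvPolynomial (V3 m) ℂ), pr P G =
      ∑ α : SJ m J, v α * (((∏ i, (α.1 i).factorial : ℕ) : MvPolynomial (V3 m) ℂ) *
        coeff α.1 G) := by
    intro G
    unfold pr
    rw [sum_subset hsupp]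
    · rw [← sum_coe_sort (SJ m J)]
      refine sum_congr rfl fun α _ => ?_
      rw [hcoef, mul_assoc]
    · intro α _ hα
      rw [mem_support_iff, not_not] at hα
      rw [hα, zero_mul, zero_mul]
  refine ⟨P, ?_, ?_, ?_⟩
  · intro h0
    apply hv0
    funext α
    rw [← hcoef α, h0, coeff_zero]
    rfl
  · rw [hP]
    refine totalDegree_finsetSum_le fun α _ => ?_
    refine (totalDegree_monomial_le _ _).trans ?_
    rw [Finsupp.sum_fintype _ _ (fun _ => rfl)]
    exact deg_SJ α.2
  · set E : Fin (N + 1) → MvPolynomial (V3 m) ℂ := fun k => pr P (tay3 (gg f k)) with hE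
    have hE0 : ∀ k, k ≠ k₀ → E k = 0 := by
      intro k hk
      rw [hE]
      simp only
      rw [hpr]
      exact hv ⟨k, hk⟩
    have hid : E 0 * fb f 0 - ∑ l : Fin N, E l.succ * fb f l.succ = 0 := by
      have h1 : ∑ α : SJ m J, v α * (((∏ i, (α.1 i).factorial : ℕ) : MvPolynomial (V3 m) ℂ) *
          (coeff α.1 (tay3 (gg f 0)) * fb f 0 -
            ∑ l : Fin N, coeff α.1 (tay3 (gg f l.succ)) * fb f l.succ)) = 0 := by
        refine sum_eq_zero fun α _ => ?_
        rw [identC hf', mul_zero, mul_zero]
      rw [← h1, hE]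
      simp only [hpr, mul_sub, sum_sub_distrib, mul_sum, sum_mul]
      refine congrArg₂ (fun a b => a - b) ?_ ?_
      · refine sum_congr rfl fun α _ => ?_
        ring
      · rw [sum_comm]
        refine sum_congr rfl fun α _ => sum_congr rfl fun l _ => ?_
        ring
    have hk : E k₀ * fb f k₀ = 0 := by
      rcases Fin.eq_zero_or_eq_succ k₀ with h | ⟨l, h⟩
      · rw [sum_eq_zero, sub_zero] at hid
        · rw [h]
          exact hid
        · intro l _
          rw [hE0 _ (by rw [h]; exact Fin.succ_ne_zero l), zero_mul]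
      · rw [hE0 0 (by rw [h]; exact (Fin.succ_ne_zero l).symm), zero_mul, zero_sub,
          neg_eq_zero, sum_eq_single l] at hid
        · rw [h]
          exact hid
        · intro l' _ hl'
          rw [hE0 _ (by rw [h]; exact fun h' => hl' (Fin.succ_injective _ h')), zero_mul]
        · intro h'
          exact absurd (mem_univ _) h'
    intro k
    show E k = 0
    by_cases h : k = k₀
    · rw [h]
      exact (mul_eq_zero.1 hk).resolve_right (fb_ne_zero hk₀)
    · exact hE0 k h

end Pool.Agent.Helper15.DC
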