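import Pool.Agent.Helper66.DC.Goals3
import Pool.Agent.Helper69.DC.Asm2
import Pool.Agent.Helper15.DC.PDEC

/-!
# Project DC, third stage: `J_JW` from `J_RK`
-/

set_option autoImplicit false

namespace Pool.Agent.Helper15.DC

open Pool.Agent.Helper69.DC Finset MvPolynomial ComplexConjugate
open Pool.Agent.Helper66.DC

theorem mem_SJ {m J : ℕ} {α : Fin m →₀ ℕ} (h : ∑ i, α i ≤ J) : α ∈ SJ m J := by
  unfold SJ
  rw [mem_image]
  refine ⟨Finsupp.cons (J - ∑ i, α i) α, ?_, Finsupp.tail_cons _ _⟩
  rw [mem_finsuppAntidiag]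
  refine ⟨?_, subset_univ _⟩
  rw [Fin.sum_univ_succ, Finsupp.cons_zero]
  simp only [Finsupp.cons_succ]
  omega

theorem h_jw (h : J_RK) : J_JW := by
  intro m N J f hPDE
  classical
  set M : Fin (N + 1) → SJ m J → MvPolynomial (V3 m) ℂ := fun k α =>
    ((∏ i, (α.1 i).factorial : ℕ) : MvPolynomial (V3 m) ℂ) * coeff α.1 (tay3 (gg f k)) with hM
  obtain ⟨W, hW, hWx⟩ := h (V3 m) (Fin (N + 1)) (SJ m J) M
  refine ⟨W, hW, ?_⟩
  intro β b hb p hp hpr
  have hval : ∀ (k : Fin (N + 1)) (α : Fin m →₀ ℕ),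
      eval (pt β (fun i => conj (β i)) b) (coeff α (tay3 (gg f k))) =
        coeff α (MvPolynomial.map (eval β) (tay1 (gp f β b k))) := by
    intro k α
    rw [← eval_spec β b (coeff α (tay3 (gg f k))) β, coeff_map, ← spec_gg, ← map_spec_tay3,
      coeff_map]
    rfl
  have hsup : p.support ⊆ SJ m J := by
    intro α hα
    apply mem_SJ
    have h1 := le_totalDegree hα
    rw [Finsupp.sum_fintype _ _ (fun _ => rfl)] at h1
    exact h1.trans hp
  obtain ⟨K, hK, hKu⟩ := hWx _ hb (fun α => coeff α.1 p) (by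
    intro k
    rw [← hpr k, pr_eq_sum _ _ _ hsup, ← sum_coe_sort (SJ m J)]
    refine sum_congr rfl fun α _ => ?_
    rw [hM]
    simp only [map_mul, map_natCast]
    rw [hval]
    ring)
  set P : MvPolynomial (Fin m) (MvPolynomial (V3 m) ℂ) :=
    ∑ α : SJ m J, monomial α.1 (K α) with hP
  have hcoef : ∀ α : SJ m J, coeff α.1 P = K α := by
    intro α
    rw [hP, coeff_sum, sum_eq_single α]
    · rw [coeff_monomial, if_pos rfl]
    · intro β _ hβ
      rw [coeff_monomial, if_neg]
      intro h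
      exact hβ (Subtype.ext h)
    · intro h
      exact absurd (mem_univ _) h
  have hsupp : P.support ⊆ SJ m J := by
    intro α hα
    by_contra hc
    rw [mem_support_iff] at hα
    apply hα
    rw [hP, coeff_sum]
    refine sum_eq_zero fun β _ => ?_
    rw [coeff_monomial, if_neg]
    intro h
    apply hc
    rw [← h]
    exact β.2
  have hP0 : P = 0 := by
    refine hPDE P ?_ ?_
    · rw [hP]
      refine totalDegree_finsetSum_le fun α _ => ?_
      refine (totalDegree_monomial_le _ _).trans ?_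
      rw [Finsupp.sum_fintype _ _ (fun _ => rfl)]
      exact deg_SJ α.2
    · intro k
      rw [pr_eq_sum _ _ _ hsupp, ← sum_coe_sort (SJ m J)]
      have := hK k
      rw [hM] at this
      simp only at this
      rw [← this]
      refine sum_congr rfl fun α _ => ?_
      rw [hcoef]
      ring
  ext α
  rw [coeff_zero]
  by_cases hα : α ∈ SJ m J
  · rw [← hKu ⟨α, hα⟩, ← hcoef ⟨α, hα⟩, hP0, coeff_zero, map_zero]
  · exact notMem_support_iff.1 fun h => hα (hsup h)

end Pool.Agent.Helper15.DC
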